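import Mathlib

set_option autoImplicit false
open MeasureTheory Filter Set
open scoped ENNReal

namespace Pool.Agent.H.MP_97775c_nt

theorem disj_trans {Z : Set ℝ} {x y z : ℝ} (h1 : Disjoint (uIcc x y) Z) (h2 : Disjoint (uIcc y z) Z) :
    Disjoint (uIcc x z) Z :=
  Disjoint.mono_left uIcc_subset_uIcc_union_uIcc (disjoint_union_left.2 ⟨h1, h2⟩)

theorem vol_of_diam {S : Set ℝ} {s : ℝ} (h : ∀ x ∈ S, ∀ y ∈ S, x < y → y - x ≤ s) (hs : 0 ≤ s) :
    volume S ≤ ENNReal.ofReal s := by
  refine (Real.volume_le_diam S).trans (Metric.ediam_le_of_forall_dist_le ?_)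
  intro x hx y hy
  rw [Real.dist_eq]
  rcases lt_trichotomy x y with hxy | hxy | hxy
  · rw [abs_sub_comm, abs_of_pos (by linarith)]; exact h x hx y hy hxy
  · simp [hxy, hs]
  · rw [abs_of_pos (by linarith)]; exact h y hy x hx hxy

theorem vol_E (Z : Set ℝ) (c s : ℝ) :
    volume {t | t ∈ Z ∧ ∃ c', |t - c'| < s ∧ Disjoint (uIcc c' c) Z} ≤ 2 * ENNReal.ofReal s := by
  by_cases hs : 0 ≤ s
  swap
  · have : {t | t ∈ Z ∧ ∃ c', |t - c'| < s ∧ Disjoint (uIcc c' c) Z} = ∅ := by
      ext t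
      simp only [mem_setOf_eq, mem_empty_iff_false, iff_false]
      rintro ⟨-, c', h, -⟩
      exact hs ((abs_nonneg _).trans h.le)
    simp [this]
  set E := {t | t ∈ Z ∧ ∃ c', |t - c'| < s ∧ Disjoint (uIcc c' c) Z}
  have h1 : volume (E ∩ Ici c) ≤ ENNReal.ofReal s := by
    refine vol_of_diam ?_ hs
    rintro x ⟨⟨hxZ, -⟩, hxc⟩ y ⟨⟨-, c', hc', hd⟩, -⟩ hxy
    have hx : c' < x := by
      by_contra hh
      push Not at hh
      exact (Set.disjoint_left.1 hd) (mem_uIcc.2 (Or.inr ⟨hxc, hh⟩)) hxZ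
    have := (abs_lt.1 hc').2
    linarith
  have h2 : volume (E ∩ Iic c) ≤ ENNReal.ofReal s := by
    refine vol_of_diam ?_ hs
    rintro x ⟨⟨-, c', hc', hd⟩, -⟩ y ⟨⟨hyZ, -⟩, hyc⟩ hxy
    have hx : y < c' := by
      by_contra hh
      push Not at hh
      exact (Set.disjoint_left.1 hd) (mem_uIcc.2 (Or.inl ⟨hh, hyc⟩)) hyZ
    have := (abs_lt.1 hc').1
    linarith
  calc volume E ≤ volume (E ∩ Ici c ∪ E ∩ Iic c) := by
        apply measure_mono
        intro t ht
        rcases le_total c t with h | h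
        · exact Or.inl ⟨ht, h⟩
        · exact Or.inr ⟨ht, h⟩
    _ ≤ volume (E ∩ Ici c) + volume (E ∩ Iic c) := measure_union_le _ _
    _ ≤ ENNReal.ofReal s + ENNReal.ofReal s := add_le_add h1 h2
    _ = 2 * ENNReal.ofReal s := (two_mul _).symm

/-- The gap lemma. -/
theorem gap {ι : Type} [Countable ι] (Z : Set ℝ) (a b : ℝ)
    (c h : ι → ℝ) (q : ι → ℕ) (V : Set ι) (R : ℕ → ι → ℝ) (N : ℕ → ℕ) (e : ℕ → ℝ≥0∞) (C : ℝ≥0∞)
    (hh : ∀ w ∈ V, 0 < h w ∧ h w ≤ 1)
    (hole : ∀ w ∈ V, ∀ t ∈ Z, h w ≤ |t - c w|)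
    (hcb : ∀ w ∈ V, c w ∈ Icc (a - 1) (b + 1))
    (cov : ∀ k, e k ≠ 0 → ∀ t ∈ Z, ∃ w ∈ V, q w ≤ N k ∧ |t - c w| < R k w)
    (anti : ∀ k, ∀ w ∈ V, ∀ w' ∈ V, q w ≤ q w' → R k w' ≤ R k w)
    (hsum : ∀ w ∈ V, ∑' k, (if q w ≤ N k then e k * ENNReal.ofReal (R k w) else 0) ≤
      C * ENNReal.ofReal (h w)) :
    (∑' k, e k) * volume Z ≤ C * volume (Icc (a - 2) (b + 2)) := by
  classical
  rcases isEmpty_or_nonempty ι with hι | hι
  · by_cases hZ : Z = ∅
    · simp [hZ]
    obtain ⟨t, ht⟩ := nonempty_iff_ne_empty.2 hZ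
    have : ∀ k, e k = 0 := by
      intro k
      by_contra hk
      obtain ⟨w, -⟩ := cov k hk t ht
      exact hι.elim w
    simp [this]
  let cls : ι → Set ι := fun w => {w' | w' ∈ V ∧ Disjoint (uIcc (c w) (c w')) Z}
  let rep : ι → ι := fun w => Classical.epsilon fun x => x ∈ cls w ∧ ∀ y ∈ cls w, q x ≤ q y
  have hself : ∀ w ∈ V, w ∈ cls w := by
    intro w hw
    refine ⟨hw, ?_⟩
    rw [uIcc_self, disjoint_singleton_left]
    intro hz
    have := hole w hw _ hz
    have := (hh w hw).1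
    simp at *
    linarith
  have hrep : ∀ w ∈ V, rep w ∈ cls w ∧ ∀ y ∈ cls w, q (rep w) ≤ q y := by
    intro w hw
    apply Classical.epsilon_spec (p := fun x => x ∈ cls w ∧ ∀ y ∈ cls w, q x ≤ q y)
    obtain ⟨x, hx, hmin⟩ := (measure q).wf.has_min (cls w) ⟨w, hself w hw⟩
    exact ⟨x, hx, fun y hy => not_lt.1 (hmin y hy)⟩
  have hcls : ∀ w w', Disjoint (uIcc (c w) (c w')) Z → cls w = cls w' := by
    intro w w' hd
    ext x
    constructor
    · rintro ⟨hx, hx'⟩
      exact ⟨hx, disj_trans (by rwa [uIcc_comm]) hx'⟩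
    · rintro ⟨hx, hx'⟩
      exact ⟨hx, disj_trans hd hx'⟩
  have hrepeq : ∀ w w', Disjoint (uIcc (c w) (c w')) Z → rep w = rep w' := by
    intro w w' hd
    simp only [rep, hcls w w' hd]
  let P : Set ι := {w | w ∈ V ∧ rep w = w}
  have hP : ∀ w ∈ V, rep w ∈ P := fun w hw =>
    ⟨(hrep w hw).1.1, (hrepeq _ _ (hrep w hw).1.2).symm⟩
  let E : ℕ → ι → Set ℝ := fun k w =>
    {t | t ∈ Z ∧ ∃ c', |t - c'| < R k w ∧ Disjoint (uIcc c' (c w)) Z}
  have h1 : ∀ k, e k * volume Z ≤
      ∑' w : P, 2 * (if q w ≤ N k then e k * ENNReal.ofReal (R k w) else 0) := by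
    intro k
    by_cases hk : e k = 0
    · simp [hk]
    have hsub : Z ⊆ ⋃ w : P, (if q w ≤ N k then E k w else ∅) := by
      intro t ht
      obtain ⟨w, hw, hq, hR⟩ := cov k hk t ht
      have hle := (hrep w hw).2 w (hself w hw)
      refine mem_iUnion.2 ⟨⟨rep w, hP w hw⟩, ?_⟩
      simp only
      rw [if_pos (hle.trans hq)]
      exact ⟨ht, c w, hR.trans_le (anti k _ (hrep w hw).1.1 _ hw hle), (hrep w hw).1.2⟩
    calc e k * volume Z ≤ e k * ∑' w : P, volume (if q w ≤ N k then E k w else ∅) := by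
          gcongr
          exact (measure_mono hsub).trans (measure_iUnion_le _)
      _ = ∑' w : P, e k * volume (if q w ≤ N k then E k w else ∅) := ENNReal.tsum_mul_left.symm
      _ ≤ _ := by
          refine ENNReal.tsum_le_tsum fun w => ?_
          split_ifs with hq
          · calc e k * volume (E k w) ≤ e k * (2 * ENNReal.ofReal (R k w)) := by
                  gcongr
                  exact vol_E Z _ _
              _ = _ := by ring
          · simp
  have h2 : ∑' w : P, 2 * ENNReal.ofReal (h w) ≤ volume (Icc (a - 2) (b + 2)) := by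
    have hd : Pairwise (Function.onFun Disjoint fun w : P => Ioo (c w - h w) (c w + h w)) := by
      intro w w' hne
      rw [Function.onFun, Set.disjoint_left]
      intro y hy hy'
      apply hne
      apply Subtype.ext
      rw [← w.2.2, ← w'.2.2]
      apply hrepeq
      refine disj_trans (y := y) ?_ ?_
      · rw [Set.disjoint_left]
        intro t ht htZ
        have := hole w w.2.1 t htZ
        rw [mem_uIcc] at ht
        have := hy.1
        have := hy.2
        rcases abs_cases (t - c w) with h3 | h3 <;> rcases ht with ht | ht <;> linarith [ht.1, ht.2]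
      · rw [Set.disjoint_left]
        intro t ht htZ
        have := hole w' w'.2.1 t htZ
        rw [mem_uIcc] at ht
        have := hy'.1
        have := hy'.2
        rcases abs_cases (t - c w') with h3 | h3 <;> rcases ht with ht | ht <;> linarith [ht.1, ht.2]
    calc ∑' w : P, 2 * ENNReal.ofReal (h w)
        = ∑' w : P, volume (Ioo (c w - h w) (c w + h w)) := by
          refine tsum_congr fun w => ?_
          rw [Real.volume_Ioo, show c w + h w - (c w - h w) = 2 * h w by ring,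
            ENNReal.ofReal_mul (by norm_num)]
          simp
      _ = volume (⋃ w : P, Ioo (c w - h w) (c w + h w)) :=
          (measure_iUnion hd fun _ => measurableSet_Ioo).symm
      _ ≤ _ := by
          apply measure_mono
          intro y hy
          obtain ⟨w, hw⟩ := mem_iUnion.1 hy
          have := hcb w w.2.1
          have := (hh w w.2.1).2
          constructor <;> linarith [hw.1, hw.2, (hcb w w.2.1).1, (hcb w w.2.1).2]
  calc (∑' k, e k) * volume Z = ∑' k, e k * volume Z := ENNReal.tsum_mul_right.symm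
    _ ≤ ∑' k, ∑' w : P, 2 * (if q w ≤ N k then e k * ENNReal.ofReal (R k w) else 0) :=
        ENNReal.tsum_le_tsum h1
    _ = ∑' w : P, 2 * ∑' k, (if q w ≤ N k then e k * ENNReal.ofReal (R k w) else 0) := by
        rw [ENNReal.tsum_comm]
        exact tsum_congr fun w => ENNReal.tsum_mul_left
    _ ≤ ∑' w : P, C * (2 * ENNReal.ofReal (h w)) := by
        refine ENNReal.tsum_le_tsum fun w => ?_
        calc _ ≤ 2 * (C * ENNReal.ofReal (h w)) := by gcongr; exact hsum w w.2.1
          _ = _ := by ring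
    _ = C * ∑' w : P, 2 * ENNReal.ofReal (h w) := ENNReal.tsum_mul_left
    _ ≤ _ := by gcongr

end Pool.Agent.H.MP_97775c_nt
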