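import Pool.Agent.H.MP_97775c_nt.A

set_option autoImplicit false
open MeasureTheory Filter Set
open scoped ENNReal

namespace Pool.Agent.H.MP_97775c_nt

theorem close_of_floor {M : ℕ} (hM : 1 ≤ M) {u v : ℝ} (hu : 0 ≤ u) (hv : 0 ≤ v)
    (h : ⌊(M : ℝ) * u⌋₊ = ⌊(M : ℝ) * v⌋₊) : |u - v| < 1 / M := by
  have hM' : (0 : ℝ) < M := by exact_mod_cast hM
  have h1 := Nat.floor_le (mul_nonneg hM'.le hu)
  have h2 := Nat.floor_le (mul_nonneg hM'.le hv)
  have h3 := Nat.lt_floor_add_one ((M : ℝ) * u)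
  have h4 := Nat.lt_floor_add_one ((M : ℝ) * v)
  rw [h] at h1 h3
  rw [lt_div_iff₀ hM', ← abs_of_pos hM', ← abs_mul, abs_lt]
  constructor <;> nlinarith

theorem floor_mem {M : ℕ} (hM : 1 ≤ M) (u : ℝ) : ⌊(M : ℝ) * Int.fract u⌋₊ ∈ Finset.range M := by
  have hM' : (0 : ℝ) < M := by exact_mod_cast hM
  rw [Finset.mem_range, Nat.floor_lt (mul_nonneg hM'.le (Int.fract_nonneg u))]
  have := Int.fract_lt_one u
  nlinarith

theorem dirichlet {J : Type} [Fintype J] (α β : J → ℝ) (t : ℝ) (L : J → ℕ) (M N : ℕ)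
    (hL : ∀ j, 1 ≤ L j) (hM : 1 ≤ M) (hN : M * ∏ j, L j ≤ N) :
    ∃ q : ℕ, 1 ≤ q ∧ q ≤ N ∧ ∃ r : ℤ, |q * t - r| < 1 / M ∧
      ∃ p : J → ℤ, ∀ j, |q * α j + r * β j - p j| < 1 / L j := by
  classical
  let y : ℕ → J → ℝ := fun q j => q * α j + (⌊(q : ℝ) * t⌋ : ℝ) * β j
  let f : ℕ → ℕ × (J → ℕ) := fun q =>
    (⌊(M : ℝ) * Int.fract (q * t)⌋₊, fun j => ⌊(L j : ℝ) * Int.fract (y q j)⌋₊)
  have key : ∀ x z : ℕ, x < z → z ≤ N → f x = f z → ∃ q : ℕ, 1 ≤ q ∧ q ≤ N ∧ ∃ r : ℤ,
      |q * t - r| < 1 / M ∧ ∃ p : J → ℤ, ∀ j, |q * α j + r * β j - p j| < 1 / L j := by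
    intro x z hxz hz hf
    refine ⟨z - x, by omega, by omega, ⌊(z : ℝ) * t⌋ - ⌊(x : ℝ) * t⌋, ?_,
      fun j => ⌊y z j⌋ - ⌊y x j⌋, fun j => ?_⟩
    · have := close_of_floor hM (Int.fract_nonneg _) (Int.fract_nonneg _) (congrArg Prod.fst hf).symm
      convert this using 2
      push_cast [Nat.cast_sub hxz.le]
      simp only [Int.fract]
      ring
    · have := close_of_floor (hL j) (Int.fract_nonneg _) (Int.fract_nonneg _)
        (congrFun (congrArg Prod.snd hf) j).symm
      convert this using 2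
      push_cast [Nat.cast_sub hxz.le]
      simp only [Int.fract, y]
      ring
  obtain ⟨x, hx, z, hz, hne, hf⟩ := Finset.exists_ne_map_eq_of_card_lt_of_maps_to
    (s := Finset.range (N + 1))
    (t := Finset.range M ×ˢ Fintype.piFinset fun j : J => Finset.range (L j)) (f := f)
    (by simp; omega) (by
      intro q _
      simp only [Finset.coe_product, mem_prod, Finset.mem_coe, Fintype.mem_piFinset]
      exact ⟨floor_mem hM _, fun j => floor_mem (hL j) _⟩)
  rw [Finset.mem_range] at hx hz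
  rcases lt_or_gt_of_ne hne with h | h
  · exact key x z h (by omega) hf
  · exact key z x h (by omega) hf.symm

theorem geo (x : ℝ) :
    ∑' k : ℕ, (if 1 / (2 : ℝ) ^ k ≤ x then ENNReal.ofReal (1 / 2 ^ k) else 0) ≤
      2 * ENNReal.ofReal (min x 1) := by
  classical
  by_cases h : ∃ k : ℕ, 1 / (2 : ℝ) ^ k ≤ x
  swap
  · push Not at h
    have : ∀ k : ℕ, ¬ 1 / (2 : ℝ) ^ k ≤ x := fun k => not_le.2 (h k)
    simp only [this, if_false, tsum_zero, zero_le]
  set k0 := Nat.find h
  have h0 : 1 / (2 : ℝ) ^ k0 ≤ min x 1 :=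
    le_min (Nat.find_spec h) (by rw [div_le_one (by positivity)]; exact one_le_pow₀ (by norm_num))
  rw [← ENNReal.summable.sum_add_tsum_nat_add' (k := k0)]
  have h1 : ∑ k ∈ Finset.range k0,
      (if 1 / (2 : ℝ) ^ k ≤ x then ENNReal.ofReal (1 / 2 ^ k) else 0) = 0 :=
    Finset.sum_eq_zero fun k hk => if_neg (Nat.find_min h (Finset.mem_range.1 hk))
  rw [h1, zero_add]
  calc _ ≤ ∑' k : ℕ, ENNReal.ofReal (1 / 2 ^ k0) * (2⁻¹ : ℝ≥0∞) ^ k := by
        refine ENNReal.tsum_le_tsum fun k => ?_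
        have : ENNReal.ofReal (1 / 2 ^ (k + k0)) = ENNReal.ofReal (1 / 2 ^ k0) * (2⁻¹ : ℝ≥0∞) ^ k := by
          rw [show (1 : ℝ) / 2 ^ (k + k0) = 1 / 2 ^ k0 * (2⁻¹) ^ k by rw [pow_add]; field_simp; simp,
            ENNReal.ofReal_mul (by positivity), ENNReal.ofReal_pow (by norm_num),
            ENNReal.ofReal_inv_of_pos (by norm_num)]
          simp
        split_ifs
        · exact this.le
        · exact zero_le
    _ = ENNReal.ofReal (1 / 2 ^ k0) * 2 := by
        rw [ENNReal.tsum_mul_left, ENNReal.tsum_geometric]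
        simp
    _ ≤ _ := by
        rw [mul_comm]
        gcongr

theorem scales (φ : ℕ → ℝ) (n : ℕ) (h0 : ∀ q, 0 ≤ φ q) (hanti : Antitone φ)
    (hdiv : ¬ Summable fun q => φ q ^ (n + 1)) :
    ∃ N : ℕ → ℕ, (∀ k, N k ≠ 0 → 1 / (2 : ℝ) ^ k ≤ φ (N k)) ∧
      ∑' k, ENNReal.ofReal (N k / 2 ^ (k * (n + 1))) = ⊤ := by
  classical
  by_cases hA : ∃ k0 : ℕ, ∀ q, 1 / (2 : ℝ) ^ k0 ≤ φ q
  · obtain ⟨k0, hk0⟩ := hA
    refine ⟨fun k => if k0 ≤ k then 2 ^ (k * (n + 1)) else 0, ?_, ?_⟩
    · intro k hk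
      have hk' : k0 ≤ k := by
        by_contra h
        simp [h] at hk
      refine le_trans ?_ (hk0 _)
      gcongr
      norm_num
    · rw [← ENNReal.summable.sum_add_tsum_nat_add' (k := k0)]
      have : ∀ k : ℕ, ENNReal.ofReal (((if k0 ≤ k + k0 then 2 ^ ((k + k0) * (n + 1)) else 0 : ℕ) : ℝ) /
          2 ^ ((k + k0) * (n + 1))) = 1 := by
        intro k
        rw [if_pos (by omega)]
        push_cast
        rw [div_self (by positivity)]
        simp
      simp only [this]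
      simp
  push Not at hA
  let m : ℕ → ℕ := fun k => Nat.find (hA k)
  have hm : ∀ k q, 1 / (2 : ℝ) ^ k ≤ φ q → q < m k := by
    intro k q hq
    by_contra h
    push Not at h
    have := Nat.find_spec (hA k)
    have := hanti h
    simp only [m] at *
    linarith
  refine ⟨fun k => m k - 1, ?_, ?_⟩
  · intro k hk
    exact not_lt.1 (Nat.find_min (hA k) (by simp only [m] at *; omega))
  by_contra htop
  apply hdiv
  rw [← summable_nat_add_iff (m 0 + 1)]
  have hb : ∀ q : ℕ, ENNReal.ofReal (φ (q + (m 0 + 1)) ^ (n + 1)) ≤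
      ∑' k : ℕ, (if q ∈ Finset.range (m k - 1) then
        ENNReal.ofReal (2 ^ (n + 1) / 2 ^ (k * (n + 1))) else 0) := by
    intro q
    set x := φ (q + (m 0 + 1)) with hx
    rcases (h0 (q + (m 0 + 1))).eq_or_lt with h | h
    · rw [hx, ← h]; simp
    have hex : ∃ k : ℕ, 1 / (2 : ℝ) ^ k ≤ x := by
      obtain ⟨k, hk⟩ := exists_pow_lt_of_lt_one h (show (1 / 2 : ℝ) < 1 by norm_num)
      exact ⟨k, by rw [← one_div_pow]; exact hk.le⟩
    have hk1 := Nat.find_spec hex
    have hk0 : Nat.find hex ≠ 0 := by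
      intro h'
      rw [h'] at hk1
      have := hm 0 _ hk1
      omega
    obtain ⟨k, hk⟩ := Nat.exists_eq_succ_of_ne_zero hk0
    have hk2 : x < 1 / 2 ^ k := not_le.1 (Nat.find_min hex (by omega))
    rw [hk] at hk1
    refine le_trans ?_ (ENNReal.le_tsum (k + 1))
    have := hm _ _ hk1
    rw [if_pos (Finset.mem_range.2 (by simp only [Nat.succ_eq_add_one] at this; omega))]
    apply ENNReal.ofReal_le_ofReal
    calc x ^ (n + 1) ≤ (1 / 2 ^ k) ^ (n + 1) := by gcongr
      _ = _ := by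
        rw [add_mul, one_mul, pow_add (2 : ℝ) (k * (n + 1)), pow_mul, one_div_pow]
        field_simp
  have hfin : ∑' q : ℕ, ENNReal.ofReal (φ (q + (m 0 + 1)) ^ (n + 1)) ≠ ⊤ := by
    refine ne_top_of_le_ne_top ?_ (ENNReal.tsum_le_tsum hb)
    rw [ENNReal.tsum_comm]
    have : ∀ k : ℕ, ∑' q : ℕ, (if q ∈ Finset.range (m k - 1) then
        ENNReal.ofReal (2 ^ (n + 1) / 2 ^ (k * (n + 1))) else 0) =
        ENNReal.ofReal (2 ^ (n + 1)) *
          ENNReal.ofReal (((m k - 1 : ℕ) : ℝ) / 2 ^ (k * (n + 1))) := by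
      intro k
      rw [tsum_eq_sum (s := Finset.range (m k - 1)) (fun q hq => if_neg hq),
        Finset.sum_congr rfl (fun q hq => if_pos hq), Finset.sum_const, Finset.card_range,
        nsmul_eq_mul, ← ENNReal.ofReal_natCast, ← ENNReal.ofReal_mul (by positivity),
        ← ENNReal.ofReal_mul (by positivity)]
      congr 1
      ring
    simp only [this]
    rw [ENNReal.tsum_mul_left]
    exact ENNReal.mul_ne_top ENNReal.ofReal_ne_top htop
  have := ENNReal.summable_toReal hfin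
  refine this.congr fun q => ?_
  rw [ENNReal.toReal_ofReal (pow_nonneg (h0 _) _)]

theorem line {J : Type} [Fintype J] (α β : J → ℝ) (φ : ℕ → ℝ) (h0 : ∀ q, 0 ≤ φ q)
    (hanti : Antitone φ) (hdiv : ¬ Summable fun q => φ q ^ (Fintype.card J + 1)) :
    ∀ᵐ t : ℝ, ∃ᶠ q : ℕ in atTop, ∃ r : ℤ, |q * t - r| < φ q ∧
      ∃ p : J → ℤ, ∀ j, |q * α j + r * β j - p j| < φ q := by
  classical
  obtain ⟨N, hN, hNs⟩ := scales φ _ h0 hanti hdiv
  set n := Fintype.card J
  let Z : ℕ → ℕ → ℕ → Set ℝ := fun Q m b => {t | t ∈ Icc (-(b : ℝ)) b ∧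
    (∀ q : ℕ, Q < q → ¬ ∃ r : ℤ, |q * t - r| < φ q ∧
      ∃ p : J → ℤ, ∀ j, |q * α j + r * β j - p j| < φ q) ∧
    ∀ q : ℕ, 1 ≤ q → q ≤ Q → ∀ r : ℤ, 1 / ((m + 1 : ℕ) : ℝ) ≤ |q * t - r|}
  have hZ : ∀ Q m b, volume (Z Q m b) = 0 := by
    intro Q m b
    let M : ℕ → ℕ := fun k => N k / 2 ^ (k * n)
    let e : ℕ → ℝ≥0∞ := fun k => if m + 1 ≤ M k then ENNReal.ofReal (M k / 2 ^ k) else 0
    let V : Set (ℕ × ℤ) := {w | Q < w.1 ∧ 0 < φ w.1 ∧
      (∃ p : J → ℤ, ∀ j, |w.1 * α j + w.2 * β j - p j| < φ w.1) ∧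
      (w.2 : ℝ) / w.1 ∈ Icc (-(b : ℝ) - 1) (b + 1)}
    have hq1 : ∀ w ∈ V, (1 : ℝ) ≤ w.1 := fun w hw => by
      have := hw.1
      exact_mod_cast (by omega : 1 ≤ w.1)
    have habs : ∀ (q : ℕ) (r : ℤ) (t : ℝ), (1 : ℝ) ≤ q → |t - r / q| = |q * t - r| / q := by
      intro q r t hq
      rw [← abs_of_pos (show (0 : ℝ) < q by linarith), ← abs_div, abs_of_pos (show (0 : ℝ) < q by linarith)]
      congr 1
      field_simp
    have hg := gap (Z Q m b) (-(b : ℝ)) b (fun w : ℕ × ℤ => (w.2 : ℝ) / w.1)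
      (fun w => min (φ w.1) 1 / w.1) Prod.fst V (fun k w => 1 / (M k : ℝ) / w.1) N e 2
      (fun w hw => ⟨div_pos (lt_min hw.2.1 one_pos) (by linarith [hq1 w hw]), by
        rw [div_le_one (by linarith [hq1 w hw])]
        exact (min_le_right _ _).trans (hq1 w hw)⟩)
      (fun w hw t ht => by
        rw [habs _ _ _ (hq1 w hw)]
        gcongr
        refine (min_le_left _ _).trans (not_lt.1 fun h => ht.2.1 w.1 hw.1 ⟨w.2, h, hw.2.2.1⟩))
      (fun w hw => hw.2.2.2)
      (fun k hk t ht => by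
        have hmk : m + 1 ≤ M k := by
          by_contra h
          exact hk (if_neg h)
        obtain ⟨q, hq, hqN, r, hr, p, hp⟩ := dirichlet α β t (fun _ => 2 ^ k) (M k) (N k)
          (fun _ => Nat.one_le_two_pow) (by omega) (by
            rw [Finset.prod_const, Finset.card_univ, ← pow_mul]
            exact Nat.div_mul_le_self _ _)
        have hφ : 1 / (2 : ℝ) ^ k ≤ φ q := (hN k (by omega)).trans (hanti hqN)
        have hq' : (1 : ℝ) ≤ q := by exact_mod_cast hq
        have hM1 : (1 : ℝ) ≤ M k := by exact_mod_cast (by omega : 1 ≤ M k)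
        have hlt : |t - r / q| < 1 / (M k : ℝ) / q := by
          rw [habs _ _ _ hq']
          gcongr
        have hle : 1 / (M k : ℝ) / q ≤ 1 := by
          rw [div_div, div_le_one (by positivity)]
          nlinarith
        refine ⟨(q, r), ⟨?_, lt_of_lt_of_le (by positivity) hφ, ⟨p, fun j => ?_⟩, ?_⟩, hqN, hlt⟩
        · by_contra h
          have h1 := ht.2.2 q hq (not_lt.1 h) r
          have h2 : 1 / (M k : ℝ) ≤ 1 / ((m + 1 : ℕ) : ℝ) := by gcongr
          linarith
        · have := hp j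
          push_cast at this
          exact this.trans_le hφ
        · have := abs_lt.1 (hlt.trans_le hle)
          have h3 := ht.1
          constructor <;> simp only <;> linarith [h3.1, h3.2, this.1, this.2])
      (fun k w hw w' hw' hle => by
        have := hq1 w hw
        gcongr)
      (fun w hw => by
        have hw1 := hq1 w hw
        calc _ ≤ ∑' k : ℕ, (if 1 / (2 : ℝ) ^ k ≤ φ w.1 then ENNReal.ofReal (1 / 2 ^ k) else 0) *
              ENNReal.ofReal (1 / w.1) := by
              refine ENNReal.tsum_le_tsum fun k => ?_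
              by_cases hqk : w.1 ≤ N k
              swap
              · simp [hqk]
              have hN0 : N k ≠ 0 := by have := hw.1; omega
              rw [if_pos hqk, if_pos ((hN k hN0).trans (hanti hqk))]
              simp only [e]
              split_ifs with hmk
              · have hM1 : (1 : ℝ) ≤ M k := by exact_mod_cast (by omega : 1 ≤ M k)
                rw [← ENNReal.ofReal_mul (by positivity), ← ENNReal.ofReal_mul (by positivity)]
                apply le_of_eq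
                congr 1
                field_simp
              · simp
          _ ≤ 2 * ENNReal.ofReal (min (φ w.1) 1) * ENNReal.ofReal (1 / w.1) := by
              rw [ENNReal.tsum_mul_right]
              gcongr
              exact geo _
          _ = _ := by
              rw [mul_assoc, ← ENNReal.ofReal_mul (le_min (h0 _) zero_le_one)]
              congr 2
              ring)
    have he : ∑' k, e k = ⊤ := by
      by_contra hne
      have h1 : ∀ k, ENNReal.ofReal (N k / 2 ^ (k * (n + 1))) ≤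
          e k + ENNReal.ofReal (m + 1) * (2⁻¹ : ℝ≥0∞) ^ k := by
        intro k
        have h2 : (N k : ℝ) / 2 ^ (k * (n + 1)) ≤ (M k + 1) / 2 ^ k := by
          have h3 : N k < (M k + 1) * 2 ^ (k * n) := by
            rw [← Nat.div_lt_iff_lt_mul (by positivity)]
            exact Nat.lt_succ_self _
          have h4 : (N k : ℝ) ≤ (M k + 1) * 2 ^ (k * n) := by exact_mod_cast h3.le
          rw [mul_add, mul_one, pow_add, ← div_div]
          gcongr
          rwa [div_le_iff₀ (by positivity)]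
        have h5 : ENNReal.ofReal (m + 1) * (2⁻¹ : ℝ≥0∞) ^ k = ENNReal.ofReal ((m + 1) / 2 ^ k) := by
          rw [div_eq_mul_inv, ← inv_pow, ENNReal.ofReal_mul (by positivity),
            ENNReal.ofReal_pow (by norm_num), ENNReal.ofReal_inv_of_pos (by norm_num)]
          simp
        rw [h5]
        refine (ENNReal.ofReal_le_ofReal h2).trans ?_
        simp only [e]
        split_ifs with hmk
        · rw [← ENNReal.ofReal_add (by positivity) (by positivity), ← add_div]
          gcongr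
          linarith [(Nat.cast_nonneg m : (0 : ℝ) ≤ m)]
        · rw [zero_add]
          gcongr
          exact_mod_cast (by omega : M k ≤ m)
      have h6 := ENNReal.tsum_le_tsum h1
      rw [hNs, ENNReal.tsum_add, ENNReal.tsum_mul_left, ENNReal.tsum_geometric, top_le_iff] at h6
      refine (ENNReal.add_ne_top.2 ⟨hne, ENNReal.mul_ne_top ENNReal.ofReal_ne_top ?_⟩) h6
      simp
    by_contra hne
    rw [he, ENNReal.top_mul hne, top_le_iff] at hg
    exact ENNReal.mul_ne_top (by simp) (by simp) hg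
  have hrat : volume (range ((↑) : ℚ → ℝ)) = 0 := (countable_range _).measure_zero _
  have hall : volume (range ((↑) : ℚ → ℝ) ∪ ⋃ Q, ⋃ m, ⋃ b, Z Q m b) = 0 :=
    measure_union_null hrat (measure_iUnion_null fun Q => measure_iUnion_null fun m =>
      measure_iUnion_null fun b => hZ Q m b)
  refine measure_mono_null ?_ hall
  intro t ht
  by_cases hirr : t ∈ range ((↑) : ℚ → ℝ)
  · exact Or.inl hirr
  right
  simp only [mem_compl_iff, mem_setOf_eq, not_frequently, eventually_atTop] at ht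
  obtain ⟨Q, hQ⟩ := ht
  have hev : ∀ᶠ m : ℕ in atTop, ∀ q ∈ Finset.Icc 1 Q,
      1 / ((m : ℝ) + 1) < |q * t - round (q * t)| := by
    rw [Finset.eventually_all]
    intro q hq
    apply tendsto_one_div_add_atTop_nhds_zero_nat.eventually_lt_const
    rw [abs_pos, sub_ne_zero]
    intro h
    apply hirr
    have hq' : (0 : ℝ) < q := by exact_mod_cast (Finset.mem_Icc.1 hq).1
    refine ⟨(round ((q : ℝ) * t) : ℚ) / q, ?_⟩
    push_cast
    rw [← h]
    field_simp
  obtain ⟨m, hm⟩ := hev.exists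
  obtain ⟨b, hb⟩ := exists_nat_ge |t|
  refine mem_iUnion.2 ⟨Q, mem_iUnion.2 ⟨m, mem_iUnion.2 ⟨b, abs_le.1 hb, fun q hq => hQ q hq.le, ?_⟩⟩⟩
  intro q h1 h2 r
  push_cast
  exact (hm q (Finset.mem_Icc.2 ⟨h1, h2⟩)).le.trans (round_le _ _)

end Pool.Agent.H.MP_97775c_nt
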