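import Pool.Agent.H.MP_97775c_nt.B

set_option autoImplicit false
open MeasureTheory Filter Set
open scoped ENNReal

namespace Pool.Agent.H.MP_97775c_nt

theorem line2 {n : ℕ} (a v : Fin n → ℝ) (hv : v ≠ 0) (ψ : ℕ → ℝ) (h0 : ∀ q, 0 ≤ ψ q)
    (hanti : Antitone ψ) (hdiv : ¬ Summable fun q => ψ q ^ n) :
    ∀ᵐ s : ℝ, ∃ᶠ q : ℕ in atTop, ∀ i : Fin n,
      |(q : ℝ) * (a i + s * v i) - (round ((q : ℝ) * (a i + s * v i)) : ℝ)| < ψ q := by
  classical
  obtain ⟨i0, hi0⟩ := Function.ne_iff.1 hv
  simp only [Pi.zero_apply] at hi0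
  let β : {i // i ≠ i0} → ℝ := fun i => v i / v i0
  let α : {i // i ≠ i0} → ℝ := fun i => a i - β i * a i0
  let K : ℝ := 1 + ∑ i, |β i|
  have hs0 : 0 ≤ ∑ i, |β i| := Finset.sum_nonneg fun i _ => abs_nonneg _
  have hK : 1 ≤ K := by simp only [K]; linarith
  have hKi : ∀ i, 1 + |β i| ≤ K := fun i => by
    have := Finset.single_le_sum (f := fun i => |β i|) (fun i _ => abs_nonneg _) (Finset.mem_univ i)
    simp only [K]; linarith
  have hcard : Fintype.card {i // i ≠ i0} + 1 = n := by
    have := i0.pos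
    simp
    omega
  have hl := line α β (fun q => ψ q / K) (fun q => div_nonneg (h0 q) (by linarith))
    (fun x y hxy => by simp only; gcongr; exact hanti hxy) (by
      rw [hcard]
      intro h
      apply hdiv
      refine (h.mul_right (K ^ n)).congr fun q => ?_
      rw [div_pow]
      field_simp)
  have hq : Measure.QuasiMeasurePreserving (fun s : ℝ => a i0 + s * v i0) volume volume := by
    have h1 : Measure.QuasiMeasurePreserving (fun s : ℝ => s * v i0) volume volume := by
      refine ⟨by fun_prop, ?_⟩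
      rw [Real.map_volume_mul_right hi0]
      exact Measure.smul_absolutelyContinuous
    exact (measurePreserving_add_left volume (a i0)).quasiMeasurePreserving.comp h1
  filter_upwards [hq.ae hl] with s hs
  refine hs.mono ?_
  rintro q ⟨r, hr, p, hp⟩ i
  have hψ : 0 < ψ q / K := (abs_nonneg _).trans_lt hr
  have hψK : ψ q / K * K = ψ q := by field_simp
  by_cases hi : i = i0
  · subst hi
    refine (round_le _ r).trans_lt (hr.trans_le ?_)
    nlinarith
  · refine (round_le _ (p ⟨i, hi⟩)).trans_lt ?_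
    have h1 : (q : ℝ) * (a i + s * v i) - p ⟨i, hi⟩ =
        (q * α ⟨i, hi⟩ + r * β ⟨i, hi⟩ - p ⟨i, hi⟩) + β ⟨i, hi⟩ * (q * (a i0 + s * v i0) - r) := by
      simp only [α, β]
      field_simp
      ring
    rw [h1]
    refine (abs_add_le _ _).trans_lt ?_
    rw [abs_mul]
    have h2 := hp ⟨i, hi⟩
    have h3 := hKi ⟨i, hi⟩
    have h4 : |β ⟨i, hi⟩| * |q * (a i0 + s * v i0) - r| ≤ |β ⟨i, hi⟩| * (ψ q / K) := by gcongr
    nlinarith

theorem main (n d : ℕ) (hd : 1 ≤ d) (a : Fin n → ℝ) (A : (Fin d → ℝ) →ₗ[ℝ] (Fin n → ℝ))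
    (hA : Function.Injective A) (ψ : ℕ → ℝ) (h0 : ∀ q, 0 ≤ ψ q) (hanti : Antitone ψ)
    (hdiv : ¬ Summable (fun q : ℕ => ψ q ^ n)) :
    ∀ᵐ t ∂(volume : Measure (Fin d → ℝ)),
      ∃ᶠ q : ℕ in atTop, ∀ i : Fin n,
        |(q : ℝ) * (a i + A t i) - (round ((q : ℝ) * (a i + A t i)) : ℝ)| < ψ q := by
  classical
  obtain ⟨d, rfl⟩ : ∃ d', d = d' + 1 := ⟨d - 1, by omega⟩
  let e := MeasurableEquiv.piFinSuccAbove (fun _ : Fin (d + 1) => ℝ) 0
  have he : MeasurePreserving e := volume_preserving_piFinSuccAbove _ 0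
  let P : (Fin (d + 1) → ℝ) → Prop := fun t => ∃ᶠ q : ℕ in atTop, ∀ i : Fin n,
        |(q : ℝ) * (a i + A t i) - (round ((q : ℝ) * (a i + A t i)) : ℝ)| < ψ q
  have hAc : Continuous A := A.continuous_of_finiteDimensional
  have hP : MeasurableSet {t | P t} := by
    have : {t | P t} = ⋂ Q : ℕ, ⋃ q : ℕ, ⋃ (_ : Q ≤ q), ⋂ i : Fin n,
        {t | |(q : ℝ) * (a i + A t i) - (round ((q : ℝ) * (a i + A t i)) : ℝ)| < ψ q} := by
      ext t
      simp [P, frequently_atTop]
    rw [this]
    refine MeasurableSet.iInter fun Q => MeasurableSet.iUnion fun q => MeasurableSet.iUnion fun _ =>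
      MeasurableSet.iInter fun i => measurableSet_lt ?_ measurable_const
    have h1 : Measurable fun t : Fin (d + 1) → ℝ => (q : ℝ) * (a i + A t i) := by
      apply Continuous.measurable
      fun_prop
    have h2 : Measurable fun x : ℝ => |x - (round x : ℝ)| := by
      simp only [round_eq]
      fun_prop
    exact h2.comp h1
  have h1 : ∀ᵐ z : ℝ × (Fin d → ℝ), P (e.symm z) := by
    have hm : MeasurableSet {z : (Fin d → ℝ) × ℝ | P (e.symm z.swap)} :=
      (e.symm.measurable.comp measurable_swap) hP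
    have h2 : ∀ᵐ z ∂((volume : Measure (Fin d → ℝ)).prod (volume : Measure ℝ)), P (e.symm z.swap) := by
      rw [Measure.ae_prod_iff_ae_ae hm]
      refine Eventually.of_forall fun y => ?_
      have hv : A (Pi.single 0 1) ≠ 0 := by
        rw [← map_zero A]
        intro h
        have := congrFun (hA h) 0
        simp at this
      filter_upwards [line2 (fun i => a i + A (e.symm (0, y)) i) _ hv ψ h0 hanti hdiv] with s hs
      have h3 : e.symm (s, y) = e.symm (0, y) + s • Pi.single 0 1 := by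
        ext j
        refine Fin.cases ?_ (fun j => ?_) j <;> simp [e, MeasurableEquiv.piFinSuccAbove]
      simp only [P, Prod.swap_prod_mk, h3, map_add, map_smul, Pi.add_apply, Pi.smul_apply,
        smul_eq_mul, ← add_assoc]
      exact hs
    exact (Measure.measurePreserving_swap (μ := (volume : Measure ℝ))
      (ν := (volume : Measure (Fin d → ℝ)))).quasiMeasurePreserving.ae h2
  filter_upwards [he.quasiMeasurePreserving.ae h1] with t ht
  simpa using ht

end Pool.Agent.H.MP_97775c_nt
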